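import Pool.Agent.Helper10.Qc.Stmts

set_option autoImplicit false

/-!
# Module DEC: decomposition of the sum over the orbit
-/

namespace Pool.Agent.Helper10.Qc

open Pool.Agent.Helper19.Qh Pool.Agent.Helper19.Qc

open Classical in
theorem dec_push {ι : Type} (O : Set (V 1)) (val : ι → V 1) (G : ι → ENNReal) :
    ∑' w : O, ∑' t, (if val t = (w : V 1) then G t else 0) ≤ ∑' t, G t := by
  rw [ENNReal.tsum_comm]
  refine ENNReal.tsum_le_tsum fun t => ?_
  by_cases h : val t ∈ O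
  · rw [tsum_eq_single (⟨val t, h⟩ : O)]
    · simp
    · intro w hw
      rw [if_neg]
      intro e
      exact hw (Subtype.ext e.symm)
  · have : ∀ w : O, (if val t = (w : V 1) then G t else 0) = 0 := by
      intro w
      rw [if_neg]
      intro e
      exact h (e ▸ w.2)
    rw [tsum_congr this]
    simp

theorem dec_F5 {x : ℝ} (h : 5 / 4 ≤ x) : F5 x = 0 := by
  unfold F5
  rw [max_eq_right (by linarith)]
  simp

theorem dec_unit {u : Q} (hu : ‖u‖ = 1) : u * star u = 1 ∧ star u * u = 1 := by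
  constructor
  · rw [Quaternion.self_mul_star, Quaternion.normSq_eq_norm_mul_self, hu]
    norm_num
  · rw [Quaternion.star_mul_self, Quaternion.normSq_eq_norm_mul_self, hu]
    norm_num

theorem dec_small (hL : ST_HLOW) {p : Pt 1} (h1 : 1 ≤ hgt p) {w : V 1}
    (hw : herm w w = 0) (hN : ∃ N : ℕ, ‖w.2.2‖ ^ 2 = N) (hF : F5 (uval w p) ≠ 0) :
    ‖w.2.2‖ ^ 2 ≤ 4 := by
  by_contra hc
  push Not at hc
  obtain ⟨N, hN⟩ := hN
  have h5 : (5 : ℝ) ≤ ‖w.2.2‖ ^ 2 := by
    rw [hN] at hc ⊢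
    have : 4 < N := by exact_mod_cast hc
    exact_mod_cast this
  apply hF
  apply dec_F5
  have h2 := hL p w hw
  have h3 : -(herm (vec p) w * w.2.2).re ≤ ‖herm (vec p) w‖ * ‖w.2.2‖ := by
    rw [← norm_mul]
    exact (neg_le_abs _).trans (q_abs_le _).1
  set A := ‖herm (vec p) w‖ with hA
  set c := ‖w.2.2‖ with hcd
  have h4 : c ^ 2 * hgt p ≤ 2 * (A * c) := by
    have := sq_nonneg ‖w.2.2 * p.2 0 - w.2.1 0‖
    linarith
  have hc0 : 0 < c := by
    have : 0 ≤ c := norm_nonneg _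
    rcases this.eq_or_lt with h | h
    · rw [← h] at h5
      norm_num at h5
    · exact h
  have h6 : c * hgt p ≤ 2 * A := by
    have e1 : c * (c * hgt p) ≤ c * (2 * A) := by
      calc c * (c * hgt p) = c ^ 2 * hgt p := by ring
        _ ≤ 2 * (A * c) := h4
        _ = c * (2 * A) := by ring
    exact le_of_mul_le_mul_left e1 hc0
  have hh : 0 < hgt p := by linarith
  unfold uval
  rw [le_div_iff₀ hh, ← hA]
  have h7 : (c * hgt p) ^ 2 ≤ (2 * A) ^ 2 := pow_le_pow_left₀ (by positivity) h6 2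
  have h8 : 5 * (hgt p * hgt p) ≤ c ^ 2 * (hgt p * hgt p) :=
    mul_le_mul_of_nonneg_right h5 (by positivity)
  have h9 : hgt p * 1 ≤ hgt p * hgt p := mul_le_mul_of_nonneg_left h1 hh.le
  have h10 : (c * hgt p) ^ 2 = c ^ 2 * (hgt p * hgt p) := by ring
  have h11 : (2 * A) ^ 2 = 4 * A ^ 2 := by ring
  rw [h10, h11] at h7
  linarith

theorem dec_rho1 : rho 1 = ⟨1, 1, 0, 0⟩ := rfl

theorem dec_rho1_mem : rho 1 ∈ HO := by
  refine ⟨2, 0, -1, -1, ?_⟩
  rw [dec_rho1]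
  apply Quaternion.ext <;> simp only [hq_re, hq_i, hq_j, hq_k] <;> norm_num

theorem dec_rho1_norm : ‖rho 1‖ ^ 2 = 2 := by
  rw [q_norm_sq, dec_rho1]
  norm_num

/-- the second coordinate is even -/
theorem dec_ev {a b : Q} (ha : a ∈ HO) (h : 2 * (a * star (rho 1)).re + ‖b‖ ^ 2 = 0) : EvN b := by
  obtain ⟨n, x, y, z, rfl⟩ := ha
  have e : (hq n x y z * star (rho 1)).re = ((n + x : ℤ) : ℝ) := by
    rw [Quaternion.re_mul, Quaternion.re_star, Quaternion.imI_star, Quaternion.imJ_star,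
      Quaternion.imK_star, dec_rho1, hq_re, hq_i, hq_j, hq_k]
    push_cast
    ring
  rw [e] at h
  have h2 : (0 : ℝ) ≤ ((-(n + x) : ℤ) : ℝ) := by
    have := sq_nonneg ‖b‖
    push_cast at h ⊢
    linarith
  have h3 : 0 ≤ -(n + x) := by exact_mod_cast h2
  refine ⟨(-(n + x)).toNat, ?_⟩
  have h4 : (((-(n + x)).toNat : ℤ) : ℝ) = ((-(n + x) : ℤ) : ℝ) := by
    rw [Int.toNat_of_nonneg h3]
  have h5 : (((-(n + x)).toNat : ℕ) : ℝ) = ((-(n + x) : ℤ) : ℝ) := by
    rw [← h4]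
    push_cast
    rfl
  rw [h5]
  push_cast at h ⊢
  linarith

/-- index set of the cusp vectors with third coordinate of norm between `1` and `4` -/
abbrev dec_T (U : Finset Q) : Type :=
  {u : Q // u ∈ U} × (Σ i : Fin 7, Σ b : HO, FibA i (b : Q))

/-- the cusp vector -/
noncomputable def dec_val (U : Finset Q) (t : dec_T U) : V 1 :=
  (t.1 : Q) • (((t.2.2.2 : Q), e1 (t.2.2.1 : Q), rho t.2.1) : V 1)

theorem dec_main (h2 : ST_REP) (h3 : ST_OM) (h4 : ST_OU) (h5 : ST_OP) (h6 : ST_O0)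
    (h7 : ST_HLOW) (h8 : ST_PI) {U : Finset Q} (hU : ∀ q, q ∈ U ↔ q ∈ HO ∧ ‖q‖ = 1)
    {p : Pt 1} (hh : 1 ≤ hgt p) {w : V 1} (hw : w ∈ Orb MO)
    (hF : F5 (uval w p) ≠ 0) :
    (∃ u : {u : Q // u ∈ U}, (u : Q) • (w0 : V 1) = w) ∨ ∃ t : dec_T U, dec_val U t = w := by
  have hM := h3 w hw
  have h0 := herm_Orb hw
  have hc := dec_small h7 hh h0 (HO_norm_sq hM.2.2) hF
  by_cases hz : w.2.2 = 0
  · left
    obtain ⟨u, hu, hu1, e⟩ := h6 w hw hz
    exact ⟨⟨u, (hU u).2 ⟨hu, hu1⟩⟩, e.symm⟩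
  · right
    obtain ⟨u, hu, hu1, i, hi⟩ := h2 _ hM.2.2 hz hc
    obtain ⟨hv1, hv2⟩ := dec_unit hu1
    have hsu := star_HO hu
    have hw' : star u • w ∈ Orb MO := h4 (star u) hsu (by rw [Quaternion.norm_star]; exact hu1) w hw
    have hwe : star u • w = ((star u * w.1, e1 (star u * w.2.1 0), rho i) : V 1) := by
      refine Prod.ext ?_ (Prod.ext ?_ ?_)
      · rfl
      · change star u • w.2.1 = e1 (star u * w.2.1 0)
        rw [← e1_eta (star u • w.2.1)]
        rfl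
      · change star u * w.2.2 = rho i
        rw [hi, ← mul_assoc, hv2, one_mul]
    have ha : star u * w.1 ∈ HO := HO.mul_mem hsu hM.1
    have hb : star u * w.2.1 0 ∈ HO := HO.mul_mem hsu hM.2.1
    have hherm := herm_self_re (star u • w)
    rw [herm_Orb hw', hwe] at hherm
    have hcond : 2 * (star u * w.1 * star (rho i)).re + ‖star u * w.2.1 0‖ ^ 2 = 0 := by
      have e : ‖(e1 (star u * w.2.1 0) : E 1)‖ = ‖star u * w.2.1 0‖ := e1_norm _
      rw [← e]
      exact hherm.symm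
    have hfib : star u * w.1 ∈ FibA i (star u * w.2.1 0) := by
      refine ⟨ha, hcond, ?_⟩
      intro hi1 hev
      rw [hi1] at hcond hwe
      have hevb := dec_ev ha hcond
      obtain ⟨a', ha', ea⟩ := (h8 _).1 ⟨ha, hev⟩
      obtain ⟨b', hb', eb⟩ := (h8 _).1 ⟨hb, hevb⟩
      have := h5 (star u • w) hw' (rho 1) dec_rho1_mem ((a', e1 b', 1) : V 1)
        ⟨ha', hb', HO.one_mem⟩ (by
          rw [hwe]
          refine Prod.ext ea (Prod.ext ?_ ?_)
          · change e1 (star u * w.2.1 0) = rho 1 • e1 b'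
            rw [eb, ← e1_eta (rho 1 • e1 b')]
            rfl
          · change rho 1 = rho 1 * 1
            rw [mul_one])
      have h2' := dec_rho1_norm
      rw [this] at h2'
      norm_num at h2'
    refine ⟨(⟨u, (hU u).2 ⟨hu, hu1⟩⟩, ⟨i, ⟨star u * w.2.1 0, hb⟩, ⟨star u * w.1, hfib⟩⟩), ?_⟩
    unfold dec_val
    simp only
    rw [← hwe, smul_smul, hv1, one_smul]

theorem st_DEC (h1 : ST_UNI) (h2 : ST_REP) (h3 : ST_OM) (h4 : ST_OU) (h5 : ST_OP) (h6 : ST_O0)
    (h7 : ST_HLOW) (h8 : ST_PI) (_h9 : ST_FIB2) : ST_DEC := by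
  classical
  intro p hp hh
  obtain ⟨U, hUc, hU⟩ := h1
  have hw0 : ∀ u : {u : Q // u ∈ U}, uval ((u : Q) • (w0 : V 1)) p = 1 / hgt p := by
    intro u
    rw [uval_smul, ((hU _).1 u.2).2, uval_w0]
    ring
  have hval : ∀ t : dec_T U, uval (dec_val U t) p =
      uval (((t.2.2.2 : Q), e1 (t.2.2.1 : Q), rho t.2.1) : V 1) p := by
    intro t
    unfold dec_val
    rw [uval_smul, ((hU _).1 t.1.2).2]
    ring
  have key : ∀ w : Orb (MO : AddSubgroup (V 1)), F5 (uval (w : V 1) p) ≤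
      (∑' u : {u : Q // u ∈ U}, (if (u : Q) • (w0 : V 1) = (w : V 1) then F5 (1 / hgt p) else 0)) +
      ∑' t : dec_T U, (if dec_val U t = (w : V 1) then
        F5 (uval (((t.2.2.2 : Q), e1 (t.2.2.1 : Q), rho t.2.1) : V 1) p) else 0) := by
    intro w
    by_cases hF : F5 (uval (w : V 1) p) = 0
    · rw [hF]
      exact zero_le
    · rcases dec_main h2 h3 h4 h5 h6 h7 h8 hU hh w.2 hF with ⟨u, hu⟩ | ⟨t, ht⟩
      · refine le_trans ?_ le_self_add
        refine le_trans (le_of_eq ?_) (ENNReal.le_tsum u)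
        rw [if_pos hu, ← hw0 u, hu]
      · refine le_trans ?_ le_add_self
        refine le_trans (le_of_eq ?_) (ENNReal.le_tsum t)
        rw [if_pos ht, ← hval t, ht]
  refine (ENNReal.tsum_le_tsum key).trans ?_
  rw [ENNReal.tsum_add]
  have g1 := dec_push (Orb MO) (fun u : {u : Q // u ∈ U} => (u : Q) • (w0 : V 1))
    (fun _ => F5 (1 / hgt p))
  have g2 := dec_push (Orb MO) (dec_val U)
    (fun t => F5 (uval (((t.2.2.2 : Q), e1 (t.2.2.1 : Q), rho t.2.1) : V 1) p))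
  refine (add_le_add g1 g2).trans (le_of_eq ?_)
  have e1' : ∑' _ : {u : Q // u ∈ U}, F5 (1 / hgt p) = 24 * F5 (1 / hgt p) := by
    rw [tsum_fintype, Finset.sum_const, Finset.card_univ, Fintype.card_coe, hUc, nsmul_eq_mul]
    norm_num
  have e2' : ∑' t : dec_T U, F5 (uval (((t.2.2.2 : Q), e1 (t.2.2.1 : Q), rho t.2.1) : V 1) p) =
      24 * ∑ i : Fin 7, ∑' b : HO, ∑' a : FibA i (b : Q),
        F5 (uval (((a : Q), e1 (b : Q), rho i) : V 1) p) := by
    have e3 := ENNReal.tsum_prod (f := fun (_ : {u : Q // u ∈ U})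
      (t : Σ i : Fin 7, Σ b : HO, FibA i (b : Q)) =>
      F5 (uval (((t.2.2 : Q), e1 (t.2.1 : Q), rho t.1) : V 1) p))
    refine e3.trans ?_
    rw [tsum_fintype, Finset.sum_const, Finset.card_univ, Fintype.card_coe, hUc, nsmul_eq_mul]
    congr 1
    rw [ENNReal.tsum_sigma', tsum_fintype]
    refine Finset.sum_congr rfl fun i _ => ?_
    rw [ENNReal.tsum_sigma']
  rw [e1', e2', mul_add]

end Pool.Agent.Helper10.Qc
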